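import Mathlib

namespace Pool.Agent.MP_855f4c_ag.Et

open CategoryTheory Limits AlgebraicGeometry TensorProduct

theorem hasExt : HasExt.{1} (Sheaf Scheme.etaleTopology.{0} Ab.{1}) :=
  have : EssentiallySmall.{1} Scheme.{0} := inferInstance
  have : IsGrothendieckAbelian.{1} (Sheaf Scheme.etaleTopology.{0} Ab.{1}) :=
    Sheaf.isGrothendieckAbelian_of_essentiallySmall _ _
  IsGrothendieckAbelian.hasExt _

attribute [local instance] hasExt in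
/-- Etale cohomology `H^i(T, F) = Ext^i(ℤ[T], F)` on the big etale site. -/
noncomputable def coh (i : ℕ) : Scheme.{0}ᵒᵖ ⥤ Sheaf Scheme.etaleTopology.{0} Ab.{1} ⥤ Ab.{1} :=
  (uliftYoneda.{1} ⋙ (Functor.whiskeringRight _ _ _).obj AddCommGrpCat.free ⋙
    presheafToSheaf Scheme.etaleTopology Ab.{1}).op ⋙ Abelian.extFunctor i

/-- The tower of constant sheaves `ℤ/l^n`. -/
noncomputable def tower (l : ℕ) : ℕᵒᵖ ⥤ Sheaf Scheme.etaleTopology.{0} Ab.{1} :=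
  Functor.ofOpSequence (X := fun n => AddCommGrpCat.of (ZMod (l ^ n))) (fun n => AddCommGrpCat.ofHom
    (ZMod.castHom (pow_dvd_pow l n.le_succ) (ZMod (l ^ n))).toAddMonoidHom) ⋙
      AddCommGrpCat.uliftFunctor.{1} ⋙ constantSheaf Scheme.etaleTopology Ab.{1}

/-- `A ↦ ℚ ⊗ A`. -/
noncomputable def rat : Ab.{1} ⥤ ModuleCat.{1} ℚ where
  obj A := ModuleCat.of ℚ (ℚ ⊗[ℤ] A)
  map f := ModuleCat.ofHom (f.hom.toIntLinearMap.baseChange ℚ)
  map_id _ := congrArg ModuleCat.ofHom LinearMap.baseChange_id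
  map_comp f g := congrArg ModuleCat.ofHom
    (LinearMap.baseChange_comp f.hom.toIntLinearMap g.hom.toIntLinearMap)

/-- `H^i(T, ℚ_l) = ℚ ⊗ lim_n H^i(T, ℤ/l^n)`. -/
noncomputable def Hl (l i : ℕ) : Scheme.{0}ᵒᵖ ⥤ ModuleCat.{1} ℚ :=
  coh i ⋙ (Functor.whiskeringLeft _ _ _).obj (tower l) ⋙ lim ⋙ rat

/-- The Galois action on the `l`-adic cohomology of the fibre of `f` at `R → Ω`. -/
noncomputable def gal {R Ω : Type} [CommRing R] [Field Ω] [Algebra R Ω] {X : Scheme.{0}}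
    (f : X ⟶ Spec (.of R)) (l i : ℕ) (σ : Ω ≃ₐ[R] Ω) :
    Module.End ℚ
      ((Hl l i).obj (.op (pullback (Spec.map (CommRingCat.ofHom (algebraMap R Ω))) f))) :=
  ((Hl l i).map (pullback.map _ f _ f (Spec.map (CommRingCat.ofHom (σ : Ω →+* Ω))) (𝟙 X) (𝟙 _) (by
    rw [Category.comp_id, ← Spec.map_comp, ← CommRingCat.ofHom_comp]
    congr 2
    exact RingHom.ext fun r => (σ.commutes r).symm) (by simp)).op).hom

/-- `w` lies in the radical of the ideal that the non-units of `O` generate in the integral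
closure of `O`. -/
def Small (O : Type) {Ω : Type} [CommRing O] [Field Ω] [Algebra O Ω] (w : Ω) : Prop :=
  ∃ (n : ℕ) (o : O) (c : Ω), ¬ IsUnit o ∧ IsIntegral O c ∧ w ^ n = algebraMap O Ω o * c

/-- `g` fixes `O` and induces the inverse of the `Q`-th power map on the residue field. -/
def Frob (O : Type) {Ω : Type} [CommRing O] [Field Ω] [Algebra O Ω] (Q : ℕ) (g : Ω → Ω) : Prop :=
  (∀ o : O, g (algebraMap O Ω o) = algebraMap O Ω o) ∧
    ∀ z : Ω, IsIntegral O z → Small O (g z ^ Q - z)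

/-- For some `m > 0` the monodromy filtration of `u ^ m - 1` exists, is `φ`-stable, and its `a`-th
graded piece is pure of weight `a + i` for `φ` relative to `q`. -/
def Mw (q : ℕ) (i : ℤ) {W : ModuleCat.{1} ℚ} (φ u : Module.End ℚ W) : Prop :=
  ∃ m > 0, ∃ M : ℤ → Submodule ℚ W, Monotone M ∧ (∃ a, M a = ⊥) ∧ (∃ a, M a = ⊤) ∧
    (∀ a, ∀ v ∈ M a, (u ^ m - 1) v ∈ M (a - 2)) ∧
    (∀ r : ℕ, (∀ v ∈ M r, ((u ^ m - 1) ^ r) v ∈ M (-r - 1) → v ∈ M (r - 1)) ∧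
      ∀ w ∈ M (-r), ∃ v ∈ M r, w - ((u ^ m - 1) ^ r) v ∈ M (-r - 1)) ∧
    ∀ a, (∀ v ∈ M a, φ v ∈ M a) ∧ ∃ P : Polynomial ℚ, P ≠ 0 ∧
      (∀ z : ℂ, Polynomial.aeval z P = 0 → ‖z‖ ^ 2 = (q : ℝ) ^ (a + i)) ∧
        ∀ v ∈ M a, Polynomial.aeval φ P v ∈ M (a - 1)

end Pool.Agent.MP_855f4c_ag.Et
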